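import Pool.Agent.V1142.SC.Grp
import Pool.Agent.V1142.SC.Nat

/-!
# The Sato-Tate law in all Chebotarev classes and over all extensions

`K` is a number field, `G` the Sato-Tate group over `K` of a family as in the problem and `x_v ∈ G` an
element of the class of the prime `v` of `K` (any element at the finitely many exceptional primes; this
changes the `L`-functions below by finitely many factors without zeros and poles in `Re s > 0`).
Suppose that the `x_v` are equidistributed: the conjecture holds over `K`.  The problem asks for it over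
all fields.  Let `L / K` be a finite Galois extension; it is given by the open normal subgroup `U` of the
absolute Galois group of `K`.  The criterion of Serre for the law of the `x_v` in the Chebotarev classes
of `L / K`, and over the fields between `K` and `L`, asks for the continuation of the functions
`L(π ⊗ ρ, s)` to `Re s ≥ 1` without zeros and poles, for all nontrivial irreducible representations `π` of
`G` and all irreducible representations `ρ` of the group of `L / K`.

The theorem says that zeros and poles on the line do not occur, at all points where there is a local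
meromorphic continuation, if the absolute value of the character of `π` takes infinitely many values, or if
`π` and `ρ` have different dimensions.  If `G` is connected, then this excludes only the pairs with
`dim π = dim ρ = 1`, for which `L(π ⊗ ρ, s)` is the `L`-function of a Hecke character in practice;
if `G` is moreover semisimple (for example `USp(2g)`), then there are no excluded pairs with `π ≠ 1`.
So the law over `K` and local meromorphic continuations to the points of `Re s = 1` give the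
law in all Chebotarev classes of `L / K` and over all fields between `K` and `L`.
-/

set_option autoImplicit false

namespace Pool.Agent.Results.MP_4c4ce6_nt.ChebotarevClasses

open NumberField IsDedekindDomain Filter Topology MeasureTheory
open scoped Kronecker

section

variable {F : Type} [Field F] [NumberField F]

/-- The average of `φ` over the primes of `F` of norm at most `N`. -/
noncomputable def avg (φ : HeightOneSpectrum (𝓞 F) → ℂ) (N : ℕ) : ℂ :=
  (∑ᶠ w : {w : HeightOneSpectrum (𝓞 F) // Ideal.absNorm w.asIdeal ≤ N}, φ w.1) /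
    (Nat.card {w : HeightOneSpectrum (𝓞 F) // Ideal.absNorm w.asIdeal ≤ N} : ℂ)

/-- The classes of the `y w` are equidistributed for `μ`. -/
def Equidistributed {G : Type} [Group G] [TopologicalSpace G] [MeasurableSpace G]
    (y : HeightOneSpectrum (𝓞 F) → G) (μ : Measure G) : Prop :=
  ∀ f : G → ℂ, Continuous f → (∀ g h, f (h * g * h⁻¹) = f g) →
    Tendsto (avg fun w => f (y w)) atTop (𝓝 (∫ g, f g ∂μ))

/-- `y w` is a conjugate of `x v` for all but finitely many primes `w` of `F` of residue degree one over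
the prime `v` of `K` below `w`. -/
def BaseChange {K : Type} [Field K] [NumberField K] [Algebra K F] {G : Type} [Group G]
    (x : HeightOneSpectrum (𝓞 K) → G) (y : HeightOneSpectrum (𝓞 F) → G) : Prop :=
  ∃ S : Finset (HeightOneSpectrum (𝓞 F)), ∀ w, w ∉ S → ∀ v : HeightOneSpectrum (𝓞 K),
    w.asIdeal.comap (algebraMap (𝓞 K) (𝓞 F)) = v.asIdeal →
    Ideal.absNorm w.asIdeal = Ideal.absNorm v.asIdeal → ∃ h : G, y w = h * x v * h⁻¹

end

/-- The absolute Galois group of `K`, with the Krull topology. -/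
abbrev AbsGal (K : Type) [Field K] : Type := Gal(AlgebraicClosure K/K)

section

variable {K : Type} [Field K] [NumberField K]

/-- `σ` is a Frobenius element at the prime `v` of `K`: there is a maximal ideal `Q` above `v` of the
ring of all algebraic integers with `σ x ≡ x ^ N(v)` modulo `Q` for all `x`. -/
def IsFrobenius (v : HeightOneSpectrum (𝓞 K)) (σ : AbsGal K) : Prop :=
  ∃ Q : Ideal (𝓞 (AlgebraicClosure K)), Q.IsMaximal ∧
    Q.comap (algebraMap (𝓞 K) (𝓞 (AlgebraicClosure K))) = v.asIdeal ∧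
    ∀ x : 𝓞 (AlgebraicClosure K), σ • x - x ^ Ideal.absNorm v.asIdeal ∈ Q

end

section

variable {G : Type} [Group G] {n : ℕ}

/-- The character of `π`. -/
noncomputable def tr (π : G →* Matrix.unitaryGroup (Fin n) ℂ) (g : G) : ℂ :=
  (π g : Matrix (Fin n) (Fin n) ℂ).trace

/-- Only the scalars commute with all matrices `π g`. -/
def Irred (π : G →* Matrix.unitaryGroup (Fin n) ℂ) : Prop :=
  ∀ A : Matrix (Fin n) (Fin n) ℂ, (∀ g, (π g : Matrix (Fin n) (Fin n) ℂ) * A = A * π g) →
    ∃ c : ℂ, A = c • (1 : Matrix (Fin n) (Fin n) ℂ)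

/-- The absolute value of the character of `π` takes infinitely many values. -/
def ManyValues (π : G →* Matrix.unitaryGroup (Fin n) ℂ) : Prop :=
  (Set.range fun g => ‖tr π g‖).Infinite

variable {K : Type} [Field K] [NumberField K] {m : ℕ}

/-- The Euler product `L(π ⊗ ρ, s) = ∏_v det(1 - N(v)^{-s} π(x_v) ⊗ ρ(σ_v))⁻¹`. -/
noncomputable def LFun (π : G →* Matrix.unitaryGroup (Fin n) ℂ) (x : HeightOneSpectrum (𝓞 K) → G)
    (ρ : AbsGal K →* Matrix.unitaryGroup (Fin m) ℂ) (σ : HeightOneSpectrum (𝓞 K) → AbsGal K)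
    (s : ℂ) : ℂ :=
  ∏' v : HeightOneSpectrum (𝓞 K), (Matrix.det (1 - ((Ideal.absNorm v.asIdeal : ℂ) ^ (-s)) •
    ((π (x v) : Matrix (Fin n) (Fin n) ℂ) ⊗ₖ (ρ (σ v) : Matrix (Fin m) (Fin m) ℂ))))⁻¹

/-- `log |L(π ⊗ ρ, 1 + iτ + ε)| / log (1/ε)`. -/
noncomputable def size (π : G →* Matrix.unitaryGroup (Fin n) ℂ) (x : HeightOneSpectrum (𝓞 K) → G)
    (ρ : AbsGal K →* Matrix.unitaryGroup (Fin m) ℂ) (σ : HeightOneSpectrum (𝓞 K) → AbsGal K)
    (τ ε : ℝ) : ℝ :=
  Real.log ‖LFun π x ρ σ (1 + τ * Complex.I + ε)‖ / Real.log (1 / ε)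

/-- `Λ` is a meromorphic continuation of `L(π ⊗ ρ, s)` to a neighbourhood of `1 + iτ`. -/
def IsContinuation (π : G →* Matrix.unitaryGroup (Fin n) ℂ) (x : HeightOneSpectrum (𝓞 K) → G)
    (ρ : AbsGal K →* Matrix.unitaryGroup (Fin m) ℂ) (σ : HeightOneSpectrum (𝓞 K) → AbsGal K)
    (τ : ℝ) (Λ : ℂ → ℂ) : Prop :=
  MeromorphicAt Λ (1 + τ * Complex.I) ∧
    ∀ᶠ s in 𝓝 ((1 : ℂ) + τ * Complex.I), (1 : ℝ) < s.re → Λ s = LFun π x ρ σ s

end

section Bridge

set_option linter.unusedSectionVars false

open Pool.Agent.TH553.ST Pool.Agent.TH553.RS Pool.Agent.W540.BE Pool.Agent.V1142.SC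

section

variable {K : Type} [Field K] [NumberField K]

theorem avg_eq (g : HeightOneSpectrum (𝓞 K) → ℂ) : avg g = mn g := by
  funext N
  have hs : ∀ v, v ∈ upto K N ↔ Ideal.absNorm v.asIdeal ≤ N := fun v => mem_upto
  let e : {v : HeightOneSpectrum (𝓞 K) // Ideal.absNorm v.asIdeal ≤ N} ≃ (upto K N) :=
    Equiv.subtypeEquivRight fun v => (hs v).symm
  have hfin : Finite {v : HeightOneSpectrum (𝓞 K) // Ideal.absNorm v.asIdeal ≤ N} :=
    Finite.of_equiv _ e.symm
  unfold avg mn
  have h1 : (∑ᶠ v : {v : HeightOneSpectrum (𝓞 K) // Ideal.absNorm v.asIdeal ≤ N}, g v.1) =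
      ∑ v ∈ upto K N, g v := by
    rw [← Finset.sum_coe_sort, ← finsum_eq_sum_of_fintype, ← finsum_comp_equiv e]
    rfl
  have h2 : Nat.card {v : HeightOneSpectrum (𝓞 K) // Ideal.absNorm v.asIdeal ≤ N} =
      (upto K N).card := by
    rw [Nat.card_congr e, Nat.card_eq_fintype_card, Fintype.card_coe]
  rw [h1, h2, Complex.real_smul, div_eq_inv_mul]
  push_cast
  rfl

end

variable {K : Type} [Field K] [NumberField K]
variable {G : Type} [Group G] [TopologicalSpace G] [IsTopologicalGroup G] [CompactSpace G]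
  [T2Space G] [MeasurableSpace G] [BorelSpace G] {μ : Measure G} [IsProbabilityMeasure μ]
  [μ.IsHaarMeasure] {n m : ℕ} {π : G →* Matrix.unitaryGroup (Fin n) ℂ}
  {x : HeightOneSpectrum (𝓞 K) → G}

theorem law_of (h : Equidistributed x μ) : Law x μ := by
  intro f hf hcl
  have h1 := h (fun g => (f g : ℂ)) (Complex.continuous_ofReal.comp hf) fun g h => by rw [hcl]
  have h0 : ∫ g, (f g : ℂ) ∂μ = ((∫ g, f g ∂μ : ℝ) : ℂ) := integral_ofReal
  rw [avg_eq, h0] at h1
  have h2 := (Complex.continuous_re.tendsto _).comp h1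
  refine h2.congr fun N => ?_
  simp only [Function.comp]
  rw [re_mn]
  rfl

variable {U : Subgroup (AbsGal K)} [U.Normal] {σ : HeightOneSpectrum (𝓞 K) → AbsGal K}
  {ρ : AbsGal K →* Matrix.unitaryGroup (Fin m) ℂ}

/-- the Frobenius classes in the finite quotient -/
noncomputable def bar (U : Subgroup (AbsGal K)) (σ : HeightOneSpectrum (𝓞 K) → AbsGal K)
    (v : HeightOneSpectrum (𝓞 K)) : AbsGal K ⧸ U := QuotientGroup.mk (σ v)

theorem fin_quot (hU : IsOpen (U : Set (AbsGal K))) : Finite (AbsGal K ⧸ U) :=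
  Subgroup.quotient_finite_of_isOpen _ hU

theorem flaw (hU : IsOpen (U : Set (AbsGal K))) [Finite (AbsGal K ⧸ U)]
    (hσ : ∀ v, IsFrobenius v (σ v)) : FLaw (bar U σ) := by
  intro c hc
  exact mn_of_pi (cheb_mean (F := K) U hU c hc σ hσ)

theorem lfun_eq (h : ∀ u ∈ U, ρ u = 1) (s : ℂ) :
    LFun π x ρ σ s = LP π x (QuotientGroup.lift U ρ h) (bar U σ) s := rfl

theorem irr_lift (h : ∀ u ∈ U, ρ u = 1) (hρ : Irred ρ) :
    Schur (QuotientGroup.lift U ρ h) := fun A hA => hρ A fun g => hA (QuotientGroup.mk g)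

theorem out_eq {c : AbsGal K → ℂ} (hc : ∀ a, ∀ u ∈ U, c (a * u) = c a) (a : AbsGal K) :
    c (QuotientGroup.mk a : AbsGal K ⧸ U).out = c a := by
  have h2 : (QuotientGroup.mk a : AbsGal K ⧸ U) = QuotientGroup.mk (QuotientGroup.mk a :
      AbsGal K ⧸ U).out := by
    rw [QuotientGroup.out_eq']
  rw [QuotientGroup.eq] at h2
  have h3 := hc a _ h2
  rw [mul_inv_cancel_left] at h3
  exact h3

end Bridge

/-- **The Sato-Tate law in Chebotarev classes and over extensions.**  Let `K` be a number field, `G` a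
compact group with Haar probability measure `μ` and `x_v ∈ G` for the primes `v` of `K`, such that the
classes of the `x_v` are equidistributed.  Let `U` be an open normal subgroup of the absolute Galois group
of `K` and `σ_v` a Frobenius element for each prime `v`.

I.  Let `π` be a continuous irreducible unitary representation of `G` and `ρ` an irreducible unitary
representation of the Galois group with `ρ(U) = 1`.  If `|χ_π|` takes infinitely many values, or if the
dimensions are different, then `|log |L(π ⊗ ρ, 1 + iτ + ε)|| ≤ (1 - δ) log (1/ε)` for some `δ > 0` and all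
small `ε > 0`, and every meromorphic continuation to a neighbourhood of `1 + iτ` has neither a zero nor a
pole at `1 + iτ`.

II.  If `G` is connected then `|χ_π|` takes infinitely many values if the dimension is at least `2`.

III.  Suppose that for all such `π ≠ 1` and `ρ` as in I there are local meromorphic continuations at all
points of `Re s = 1`, and that the average of `χ_π(x_v) χ_ρ(σ_v)` is zero for all `π ≠ 1` and `ρ` of the
same dimension for which `|χ_π|` takes only finitely many values (for connected `G` these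
have dimension one).  Then

(a) for all continuous class functions `f` on `G` and all class functions `c` of the finite quotient of the
Galois group by `U`, the average of `f(x_v) c(σ_v)` is the product of the integral of `f` and the mean of
`c`: the `x_v` are equidistributed in every Chebotarev class;

(b) the classes of the `y_w` are equidistributed for every base change `y` of `x` to a finite extension
`F` of `K` all of whose embeddings are fixed by `U`. -/
theorem result (K : Type) [Field K] [NumberField K]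
    (G : Type) [Group G] [TopologicalSpace G] [IsTopologicalGroup G] [CompactSpace G] [T2Space G]
    [MeasurableSpace G] [BorelSpace G] (μ : Measure G) [IsProbabilityMeasure μ] [μ.IsHaarMeasure]
    (x : HeightOneSpectrum (𝓞 K) → G) (hx : Equidistributed x μ)
    (U : Subgroup (AbsGal K)) [U.Normal] (hU : IsOpen (U : Set (AbsGal K)))
    (σ : HeightOneSpectrum (𝓞 K) → AbsGal K) (hσ : ∀ v, IsFrobenius v (σ v)) :
    (∀ (n m : ℕ) (π : G →* Matrix.unitaryGroup (Fin n) ℂ)
      (ρ : AbsGal K →* Matrix.unitaryGroup (Fin m) ℂ) (τ : ℝ), Continuous π → Irred π →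
      Irred ρ → (∀ u ∈ U, ρ u = 1) → (ManyValues π ∨ n ≠ m) →
      (∀ᶠ ε : ℝ in 𝓝[>] 0, LFun π x ρ σ (1 + τ * Complex.I + ε) ≠ 0) ∧
      (∃ δ : ℝ, 0 < δ ∧ ∀ᶠ ε : ℝ in 𝓝[>] 0, |size π x ρ σ τ ε| ≤ 1 - δ) ∧
      ∀ Λ, IsContinuation π x ρ σ τ Λ → meromorphicOrderAt Λ (1 + τ * Complex.I) = (0 : ℤ)) ∧
    (ConnectedSpace G → ∀ (n : ℕ) (π : G →* Matrix.unitaryGroup (Fin n) ℂ), Continuous π →
      Irred π → 2 ≤ n → ManyValues π) ∧
    ((∀ (n m : ℕ) (π : G →* Matrix.unitaryGroup (Fin n) ℂ)
      (ρ : AbsGal K →* Matrix.unitaryGroup (Fin m) ℂ) (τ : ℝ), Continuous π → Irred π →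
      (∃ g, π g ≠ 1) → Irred ρ → (∀ u ∈ U, ρ u = 1) → (ManyValues π ∨ n ≠ m) →
      ∃ Λ, IsContinuation π x ρ σ τ Λ) →
     (∀ (n : ℕ) (π : G →* Matrix.unitaryGroup (Fin n) ℂ)
      (ρ : AbsGal K →* Matrix.unitaryGroup (Fin n) ℂ), Continuous π → Irred π →
      (∃ g, π g ≠ 1) → Irred ρ → (∀ u ∈ U, ρ u = 1) → ¬ ManyValues π →
      Tendsto (avg fun v => tr π (x v) * tr ρ (σ v)) atTop (𝓝 0)) →
     (∀ (f : G → ℂ) (c : AbsGal K → ℂ), Continuous f → (∀ g h, f (h * g * h⁻¹) = f g) →
      (∀ a, ∀ u ∈ U, c (a * u) = c a) → (∀ a b, c (b * a * b⁻¹) = c a) →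
      Tendsto (avg fun v => f (x v) * c (σ v)) atTop
        (𝓝 ((∫ g, f g ∂μ) *
          ((Nat.card (AbsGal K ⧸ U) : ℂ)⁻¹ * ∑ᶠ q : AbsGal K ⧸ U, c q.out)))) ∧
     ∀ (F : Type) [Field F] [NumberField F] [Algebra K F] (y : HeightOneSpectrum (𝓞 F) → G),
      BaseChange x y →
      (∀ u ∈ U, ∀ (i : F →ₐ[K] AlgebraicClosure K) (z : F), u (i z) = i z) →
      Equidistributed y μ) := by
  classical
  have L := law_of hx
  have hfinQ : Finite (AbsGal K ⧸ U) := fin_quot hU
  have hF : Pool.Agent.V1142.SC.FLaw (bar U σ) := flaw hU hσ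
  have partI : ∀ (n m : ℕ) (π : G →* Matrix.unitaryGroup (Fin n) ℂ)
      (ρ : AbsGal K →* Matrix.unitaryGroup (Fin m) ℂ) (τ : ℝ), Continuous π → Irred π →
      Irred ρ → (∀ u ∈ U, ρ u = 1) → (ManyValues π ∨ n ≠ m) →
      (∀ᶠ ε : ℝ in 𝓝[>] 0, LFun π x ρ σ (1 + τ * Complex.I + ε) ≠ 0) ∧
      (∃ δ : ℝ, 0 < δ ∧ ∀ᶠ ε : ℝ in 𝓝[>] 0, |size π x ρ σ τ ε| ≤ 1 - δ) ∧
      ∀ Λ, IsContinuation π x ρ σ τ Λ → meromorphicOrderAt Λ (1 + τ * Complex.I) = (0 : ℤ) := by
    intro n m π ρ τ h1 h2 h3 h4 h5
    obtain ⟨k1, k2, k3⟩ := Pool.Agent.V1142.SC.fin_lt L hF h1 h2 (irr_lift h4 h3) h5 τ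
    exact ⟨k1, k2, fun Λ hΛ => k3 Λ hΛ.1 hΛ.2⟩
  refine ⟨partI, fun hcon n π h1 h2 h3 => ?_, fun hM hH => ?_⟩
  · exact Pool.Agent.V1142.SC.big_of_connected μ h1 h2 h3
  have partA : ∀ (f : G → ℂ) (c : AbsGal K → ℂ), Continuous f →
      (∀ g h, f (h * g * h⁻¹) = f g) →
      (∀ a, ∀ u ∈ U, c (a * u) = c a) → (∀ a b, c (b * a * b⁻¹) = c a) →
      Tendsto (avg fun v => f (x v) * c (σ v)) atTop
        (𝓝 ((∫ g, f g ∂μ) *
          ((Nat.card (AbsGal K ⧸ U) : ℂ)⁻¹ * ∑ᶠ q : AbsGal K ⧸ U, c q.out))) := by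
    intro f c hf hcl hc1 hc2
    have hcb : ∀ a g : AbsGal K ⧸ U, c (g * a * g⁻¹).out = c a.out := by
      intro a g
      obtain ⟨a, rfl⟩ := QuotientGroup.mk_surjective a
      obtain ⟨g, rfl⟩ := QuotientGroup.mk_surjective g
      rw [out_eq hc1]
      have : (QuotientGroup.mk g : AbsGal K ⧸ U) * QuotientGroup.mk a *
          (QuotientGroup.mk g : AbsGal K ⧸ U)⁻¹ = QuotientGroup.mk (g * a * g⁻¹) := rfl
      rw [this, out_eq hc1, hc2]
    have key := Pool.Agent.V1142.SC.joint_fin (μ := μ) (x := x) hF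
      (fun n m π ρ h1 h2 h3 h4 => ?_) hf hcl (c := fun q => c q.out) hcb
    · rw [avg_eq]
      refine key.congr fun N => ?_
      congr 1
      funext v
      unfold bar
      rw [out_eq hc1]
    · set ρ' : AbsGal K →* Matrix.unitaryGroup (Fin m) ℂ := ρ.comp (QuotientGroup.mk' U) with hρ'
      have h5 : ∀ u ∈ U, ρ' u = 1 := by
        intro u hu
        rw [hρ', MonoidHom.comp_apply, QuotientGroup.mk'_apply, (QuotientGroup.eq_one_iff u).2 hu,
          map_one]
      have h6 : Irred ρ' := by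
        intro A hA
        refine h4 A fun q => ?_
        obtain ⟨g, rfl⟩ := QuotientGroup.mk_surjective q
        exact hA g
      by_cases hcase : ManyValues π ∨ n ≠ m
      · refine Pool.Agent.V1142.SC.avg_of_cont fun τ => ?_
        obtain ⟨Λ, hΛ⟩ := hM n m π ρ' τ h1 h2 h3 h6 h5 hcase
        exact ⟨Λ, hΛ.1, hΛ.2, (partI n m π ρ' τ h1 h2 h6 h5 hcase).2.2 Λ hΛ⟩
      · push Not at hcase
        obtain ⟨h7, h8⟩ := hcase
        subst h8
        have h9 := hH n π ρ' h1 h2 h3 h6 h5 h7
        rw [avg_eq] at h9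
        exact h9
  refine ⟨partA, fun F _ _ _ y hbc hfix => ?_⟩
  intro f hf hcl
  have hact : ∀ u ∈ U, Pool.Agent.W353.NF.act K F u = 1 := by
    intro u hu
    refine Equiv.ext fun i => AlgHom.ext fun z => ?_
    exact hfix u hu i z
  set c : AbsGal K → ℂ := fun a => (Pool.Agent.W353.NF.fixn K F a : ℂ) with hc
  have hc1 : ∀ a, ∀ u ∈ U, c (a * u) = c a := by
    intro a u hu
    rw [hc]
    simp only
    rw [Pool.Agent.W353.NF.fixn_mul_ker K F a u (hact u hu)]
  have hc2 : ∀ a b, c (b * a * b⁻¹) = c a := by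
    intro a b
    rw [hc]
    simp only
    rw [Pool.Agent.W353.NF.fixn_conj]
  set A : ℂ := (Nat.card (AbsGal K ⧸ U) : ℂ)⁻¹ * ∑ᶠ q : AbsGal K ⧸ U, c q.out with hA
  have main : ∀ f : G → ℂ, Continuous f → (∀ g h, f (h * g * h⁻¹) = f g) →
      Tendsto (Pool.Agent.TH553.ST.mn fun w => f (y w)) atTop (𝓝 ((∫ g, f g ∂μ) * A)) := by
    intro f hf hcl
    obtain ⟨B, hB⟩ := (isCompact_univ (X := G)).exists_bound_of_continuousOn hf.continuousOn
    have h1 := partA f c hf hcl hc1 hc2
    rw [avg_eq] at h1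
    exact Pool.Agent.V1142.SC.mn_bc hbc σ hσ hcl (fun g => hB g (Set.mem_univ g)) h1
  have hA1 : A = 1 := by
    have h1 := main (fun _ => 1) continuous_const fun _ _ => rfl
    have h2 : Tendsto (Pool.Agent.TH553.ST.mn fun _ : HeightOneSpectrum (𝓞 F) => (1 : ℂ)) atTop
        (𝓝 1) := by
      refine tendsto_const_nhds.congr' ?_
      filter_upwards [Pool.Agent.TH553.ST.card_ev (K := F)] with N hN
      unfold Pool.Agent.TH553.ST.mn
      rw [Finset.sum_const, Complex.real_smul, nsmul_eq_mul, mul_one]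
      push_cast
      have hN' : ((Pool.Agent.W540.BE.upto F N).card : ℂ) ≠ 0 := by exact_mod_cast hN
      rw [inv_mul_cancel₀ hN']
    have h3 := tendsto_nhds_unique h1 h2
    simpa using h3
  have h1 := main f hf hcl
  rw [hA1, mul_one] at h1
  rw [avg_eq]
  exact h1

end Pool.Agent.Results.MP_4c4ce6_nt.ChebotarevClasses
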