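import Pool.Agent.H2N.ST.Level

/-!
# Two-dimensional families: holomorphy of finitely many symmetric powers

`K` is any number field and `V` a two-dimensional family of weight `w` over `K`, for example `H¹` of an
elliptic curve over `K` (`w = 1`): at almost all primes `v` the Frobenius eigenvalues `a`, `b` satisfy
`a b = q_v^w` and `a + b = t_v q_v^{w/2}` with `-2 ≤ t_v ≤ 2`.  If `V` is not potentially abelian, the
Sato-Tate group is `SU(2)` and the equidistribution is the Sato-Tate law for the `t_v`; by Serre it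
follows from holomorphy and non-vanishing of all `L(Sym^k V, s)`, `k ≥ 1`, on the edge line
`Re s = k w / 2 + 1`.  Nothing is assumed here about modularity.  The theorem uses only finitely many
symmetric powers, only one or two points of the edge line and only that there are no poles there.

The definitions are in `Pool.Agent.H2N.ST.Defs` and `Pool.Agent.W353.EH.Defs`: `IsSymFamily t w k τ B`: the
`B v` are the Euler factors of `L(Sym^k V, s)` (arbitrary ones, regular at `k w / 2 + 1 + i τ`, at finitely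
many primes); `HasOrder (k w) τ B m`: the Euler product has a meromorphic continuation to a
neighbourhood of `k w / 2 + 1 + i τ`, of order `m` at this point; `size (k w) τ B ε`:
`log |L(k w / 2 + 1 + i τ + ε)| / log (1 / ε)`; `DirichletMean φ A`: the average
`∑ φ(v) q_v^{-1-ε} / ∑ q_v^{-1-ε}` tends to `A`.
-/

set_option autoImplicit false

namespace Pool.Agent.Results.MP_4c4ce6_nt.FiniteLevelHolomorphy

open NumberField IsDedekindDomain Filter Topology Polynomial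
open Pool.Agent.W353.EH (size HasOrder)
open Pool.Agent.H2N.ST (IsSymFamily DirichletMean level)

/-- Let `level j = 3` if `j = 1` and `level j = 2 j` if `j ≥ 2`; let `U_k` be the Chebyshev polynomials
of the second kind.
* (1) Let `c₀ + ∑ c_k U_k(x / 2) ≥ 0` for `|x| ≤ 2`, and `1 + ∑ e_h cos(τ_h u) ≥ 0` for all real `u`, with
  finitely many `k ≥ 0` and `τ_h ≠ 0`.  Then `∑ c_k (m_k(0) + ∑ e_h m_k(τ_h)) ≤ c₀` for the orders `m_k(τ)` of
  the `L(Sym^k V, s)` at `k w / 2 + 1 + i τ`; without any continuation the same holds for the sizes.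
* (2) If the `L(Sym^k V, s)`, `1 ≤ k ≤ level j`, have meromorphic continuations to neighbourhoods of
  their real edge points `k w / 2 + 1`, without poles there, then `L(Sym^j V, s)` does not vanish at
  `j w / 2 + 1`.
* (3) If, moreover, the same holds at the points `k w / 2 + 1 + i τ` for one `τ ≠ 0`, then `L(Sym^j V, s)`
  does not vanish at `j w / 2 + 1 + i τ`.
* (4) Let `R ≥ 2`.  If the `L(Sym^k V, s)`, `1 ≤ k ≤ 2 R`, have meromorphic continuations to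
  neighbourhoods of `k w / 2 + 1`, without poles there, then the Dirichlet average of
  `∑_{k ≤ R} a_k U_k(t_v / 2)` exists and is equal to the Sato-Tate mean value `a_0`: the `t_v` have the
  Sato-Tate moments up to the order `R`. -/
theorem result (K : Type) [Field K] [NumberField K] (t : HeightOneSpectrum (𝓞 K) → ℝ)
    (ht : ∀ v, |t v| ≤ 2) (w : ℕ) :
    (∀ (S : Finset ℕ) (c : ℕ → ℝ) (c₀ : ℝ),
      (∀ x : ℝ, |x| ≤ 2 → 0 ≤ c₀ + ∑ k ∈ S, c k * (Chebyshev.U ℝ (k : ℤ)).eval (x / 2)) →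
      ∀ (κ : Type) (H : Finset κ) (e τ : κ → ℝ), (∀ h ∈ H, τ h ≠ 0) →
        (∀ u : ℝ, 0 ≤ 1 + ∑ h ∈ H, e h * Real.cos (τ h * u)) →
        ∀ (B₀ : ℕ → HeightOneSpectrum (𝓞 K) → ℂ[X]) (B : ℕ → κ → HeightOneSpectrum (𝓞 K) → ℂ[X]),
          (∀ k ∈ S, IsSymFamily t w k 0 (B₀ k)) →
          (∀ k ∈ S, ∀ h ∈ H, IsSymFamily t w k (τ h) (B k h)) →
          (∀ η : ℝ, 0 < η → ∀ᶠ ε : ℝ in 𝓝[>] 0, -η ≤ c₀ + ∑ k ∈ S, c k *
            (size (k * w) 0 (B₀ k) ε + ∑ h ∈ H, e h * size (k * w) (τ h) (B k h) ε)) ∧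
          ∀ (m₀ : ℕ → ℤ) (m : ℕ → κ → ℤ), (∀ k ∈ S, HasOrder (k * w) 0 (B₀ k) (m₀ k)) →
            (∀ k ∈ S, ∀ h ∈ H, HasOrder (k * w) (τ h) (B k h) (m k h)) →
            ∑ k ∈ S, c k * (m₀ k + ∑ h ∈ H, e h * m k h) ≤ c₀) ∧
    (∀ j : ℕ, 1 ≤ j → ∀ (B₀ : ℕ → HeightOneSpectrum (𝓞 K) → ℂ[X]) (m₀ : ℕ → ℤ),
      (∀ k, 1 ≤ k → k ≤ level j →
        IsSymFamily t w k 0 (B₀ k) ∧ HasOrder (k * w) 0 (B₀ k) (m₀ k) ∧ 0 ≤ m₀ k) →
      m₀ j = 0 ∧
      ∀ (τ : ℝ) (B : ℕ → HeightOneSpectrum (𝓞 K) → ℂ[X]) (m : ℕ → ℤ), τ ≠ 0 →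
        (∀ k, 1 ≤ k → k ≤ level j →
          IsSymFamily t w k τ (B k) ∧ HasOrder (k * w) τ (B k) (m k) ∧ 0 ≤ m k) →
        m j = 0) ∧
    ∀ R : ℕ, 2 ≤ R → ∀ (B₀ : ℕ → HeightOneSpectrum (𝓞 K) → ℂ[X]) (m₀ : ℕ → ℤ),
      (∀ k, 1 ≤ k → k ≤ 2 * R →
        IsSymFamily t w k 0 (B₀ k) ∧ HasOrder (k * w) 0 (B₀ k) (m₀ k) ∧ 0 ≤ m₀ k) →
      ∀ a : ℕ → ℝ, DirichletMean (fun v => ∑ k ∈ Finset.range (R + 1),
        a k * (Chebyshev.U ℝ (k : ℤ)).eval (t v / 2)) (a 0) := by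
  refine ⟨fun S c c₀ hP κ H e τ hτ hT B₀ B hB₀ hB => ?_, fun j hj B₀ m₀ h₀ => ⟨?_, ?_⟩,
    fun R hR B₀ m₀ h₀ a => ?_⟩
  · obtain ⟨h1, h2⟩ := Pool.Agent.H2N.ST.positivity_heights ht w S c c₀ hP H e τ hτ hT B₀ hB₀ B hB
    refine ⟨h1, fun m₀ m hm₀ hm => ?_⟩
    have := h2 m₀ m hm₀ hm
    linarith
  · exact Pool.Agent.H2N.ST.level_zero ht w hj B₀
      (fun k hk => (h₀ k (Finset.mem_Icc.1 hk).1 (Finset.mem_Icc.1 hk).2).1) m₀
      (fun k hk => (h₀ k (Finset.mem_Icc.1 hk).1 (Finset.mem_Icc.1 hk).2).2)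
  · intro τ B m hτ h
    exact Pool.Agent.H2N.ST.level_height ht w hj hτ B₀ B
      (fun k hk => (h₀ k (Finset.mem_Icc.1 hk).1 (Finset.mem_Icc.1 hk).2).1)
      (fun k hk => (h k (Finset.mem_Icc.1 hk).1 (Finset.mem_Icc.1 hk).2).1) m₀ m
      (fun k hk => (h₀ k (Finset.mem_Icc.1 hk).1 (Finset.mem_Icc.1 hk).2).2)
      (fun k hk => (h k (Finset.mem_Icc.1 hk).1 (Finset.mem_Icc.1 hk).2).2)
  · exact Pool.Agent.H2N.ST.level_mean ht w hR B₀
      (fun k hk => (h₀ k (Finset.mem_Icc.1 hk).1 (Finset.mem_Icc.1 hk).2).1) m₀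
      (fun k hk => (h₀ k (Finset.mem_Icc.1 hk).1 (Finset.mem_Icc.1 hk).2).2) a

end Pool.Agent.Results.MP_4c4ce6_nt.FiniteLevelHolomorphy
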