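import Pool.Agent.V1142.SC.Hol4

/-!
# Holomorphy on the line `Re s = 1` and the Sato-Tate law

`K` is a number field, `G` a Sato-Tate group over `K` as in the problem and `x_v ∈ G` an element of the class
of the prime `v` of `K` (any element at the finitely many exceptional primes).  Serre's criterion says that
the Sato-Tate law holds if the `L`-functions of all non-trivial irreducible representations of `G` have
continuations to the line `Re s = 1` that are holomorphic AND have no zeros there.

The theorem says that the second condition is superfluous, for every compact group `G` and every family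
`x_v`: if all these functions are holomorphic on the line then there are no zeros on the line and the
law holds, except in one case, that of one quadratic character `η` of `G` with a simple zero of
`L(η, s)` at `s = 1`; then all other functions have no zeros on the line and the `x_v` are
equidistributed in the coset `η = -1`.  This case does not occur if `G` is connected, nor in the setting
of the problem, where the quadratic characters of `G` are characters of Galois groups and Chebotarev's
theorem gives the average zero.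

It is deduced from a general inequality between zeros and poles: if only the functions of finitely many
irreducible representations have poles, then the sum of `dim ρ * (order of L(ρ, s) at s = 1)` over any
finite set of irreducible representations containing them is at most one; there is a version with
several points of the line.
-/

set_option autoImplicit false

namespace Pool.Agent.Results.MP_4c4ce6_nt.HolomorphyOnTheLine

open NumberField IsDedekindDomain Filter Topology MeasureTheory

section

variable {K : Type} [Field K] [NumberField K]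

/-- The average of `φ` over the primes of `K` of norm at most `N`. -/
noncomputable def avg (φ : HeightOneSpectrum (𝓞 K) → ℂ) (N : ℕ) : ℂ :=
  (∑ᶠ w : {w : HeightOneSpectrum (𝓞 K) // Ideal.absNorm w.asIdeal ≤ N}, φ w.1) /
    (Nat.card {w : HeightOneSpectrum (𝓞 K) // Ideal.absNorm w.asIdeal ≤ N} : ℂ)

variable {G : Type} [Group G] [TopologicalSpace G] [MeasurableSpace G]

/-- The classes of the `x v` in `G` are equidistributed for the measure `e μ`. -/
def EquidistributedFor (x : HeightOneSpectrum (𝓞 K) → G) (μ : Measure G) (e : G → ℂ) : Prop :=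
  ∀ f : G → ℂ, Continuous f → (∀ g h, f (h * g * h⁻¹) = f g) →
    Tendsto (avg fun v => f (x v)) atTop (𝓝 (∫ g, f g * e g ∂μ))

/-- The classes of the `x v` in `G` are equidistributed for `μ`. -/
def Equidistributed (x : HeightOneSpectrum (𝓞 K) → G) (μ : Measure G) : Prop :=
  ∀ f : G → ℂ, Continuous f → (∀ g h, f (h * g * h⁻¹) = f g) →
    Tendsto (avg fun v => f (x v)) atTop (𝓝 (∫ g, f g ∂μ))

end

section

variable {G : Type} [Group G] {n : ℕ}

/-- The character of `π`. -/
noncomputable def tr (π : G →* Matrix.unitaryGroup (Fin n) ℂ) (g : G) : ℂ :=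
  (π g : Matrix (Fin n) (Fin n) ℂ).trace

/-- Only the scalars commute with all matrices `π g`. -/
def Irred (π : G →* Matrix.unitaryGroup (Fin n) ℂ) : Prop :=
  ∀ A : Matrix (Fin n) (Fin n) ℂ, (∀ g, (π g : Matrix (Fin n) (Fin n) ℂ) * A = A * π g) →
    ∃ c : ℂ, A = c • (1 : Matrix (Fin n) (Fin n) ℂ)

/-- `π` is continuous, irreducible and not trivial. -/
def Good [TopologicalSpace G] (π : G →* Matrix.unitaryGroup (Fin n) ℂ) : Prop :=
  Continuous π ∧ Irred π ∧ ∃ g, π g ≠ 1

variable {K : Type} [Field K] [NumberField K]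

/-- The Euler product `L(π, s) = ∏_v det(1 - N(v)^{-s} π(x_v))⁻¹`. -/
noncomputable def LFun (π : G →* Matrix.unitaryGroup (Fin n) ℂ) (x : HeightOneSpectrum (𝓞 K) → G)
    (s : ℂ) : ℂ :=
  ∏' v : HeightOneSpectrum (𝓞 K), (Matrix.det (1 - ((Ideal.absNorm v.asIdeal : ℂ) ^ (-s)) •
    (π (x v) : Matrix (Fin n) (Fin n) ℂ)))⁻¹

/-- `L(π, s)` has a meromorphic continuation to a neighbourhood of `1 + iτ`, of order `m` there. -/
def HasOrder (π : G →* Matrix.unitaryGroup (Fin n) ℂ) (x : HeightOneSpectrum (𝓞 K) → G)
    (τ : ℝ) (m : ℤ) : Prop :=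
  ∃ Λ : ℂ → ℂ, MeromorphicAt Λ (1 + τ * Complex.I) ∧
    (∀ᶠ s in 𝓝 ((1 : ℂ) + τ * Complex.I), (1 : ℝ) < s.re → Λ s = LFun π x s) ∧
    meromorphicOrderAt Λ (1 + τ * Complex.I) = m

variable [TopologicalSpace G]

/-- The functions `L(π, s)`, for `π` continuous, irreducible and not trivial, have holomorphic
continuations to neighbourhoods of all points of the line `Re s = 1`. -/
def HolomorphicOnLine (x : HeightOneSpectrum (𝓞 K) → G) : Prop :=
  ∀ (n : ℕ) (π : G →* Matrix.unitaryGroup (Fin n) ℂ) (τ : ℝ), Good π →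
    ∃ Λ : ℂ → ℂ, AnalyticAt ℂ Λ (1 + τ * Complex.I) ∧
      ∀ᶠ s in 𝓝 ((1 : ℂ) + τ * Complex.I), (1 : ℝ) < s.re → Λ s = LFun π x s

/-- None of these functions has a zero or a pole on the line `Re s = 1`. -/
def NoZeros (x : HeightOneSpectrum (𝓞 K) → G) : Prop :=
  ∀ (n : ℕ) (π : G →* Matrix.unitaryGroup (Fin n) ℂ) (τ : ℝ), Good π → HasOrder π x τ 0

/-- The character `η` takes only the values `1` and `-1`, and is not trivial. -/
def Quadratic (η : G →* Matrix.unitaryGroup (Fin 1) ℂ) : Prop :=
  Continuous η ∧ (∀ g, tr η g = 1 ∨ tr η g = -1) ∧ ∃ g, η g ≠ 1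

end

section Bridge

open Pool.Agent.TH553.ST Pool.Agent.TH553.RS Pool.Agent.W540.BE Pool.Agent.V1142.SC

variable {K : Type} [Field K] [NumberField K]

theorem avg_eq (g : HeightOneSpectrum (𝓞 K) → ℂ) : avg g = mn g := by
  funext N
  have hs : ∀ v, v ∈ upto K N ↔ Ideal.absNorm v.asIdeal ≤ N := fun v => mem_upto
  let e : {v : HeightOneSpectrum (𝓞 K) // Ideal.absNorm v.asIdeal ≤ N} ≃ (upto K N) :=
    Equiv.subtypeEquivRight fun v => (hs v).symm
  have hfin : Finite {v : HeightOneSpectrum (𝓞 K) // Ideal.absNorm v.asIdeal ≤ N} :=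
    Finite.of_equiv _ e.symm
  unfold avg mn
  have h1 : (∑ᶠ v : {v : HeightOneSpectrum (𝓞 K) // Ideal.absNorm v.asIdeal ≤ N}, g v.1) =
      ∑ v ∈ upto K N, g v := by
    rw [← Finset.sum_coe_sort, ← finsum_eq_sum_of_fintype, ← finsum_comp_equiv e]
    rfl
  have h2 : Nat.card {v : HeightOneSpectrum (𝓞 K) // Ideal.absNorm v.asIdeal ≤ N} =
      (upto K N).card := by
    rw [Nat.card_congr e, Nat.card_eq_fintype_card, Fintype.card_coe]
  rw [h1, h2, Complex.real_smul, div_eq_inv_mul]
  push_cast
  rfl

variable {G : Type} [Group G] [TopologicalSpace G] [IsTopologicalGroup G] [CompactSpace G]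
  [T2Space G] [MeasurableSpace G] [BorelSpace G] {x : HeightOneSpectrum (𝓞 K) → G}

theorem holo_of (h : HolomorphicOnLine x) : Hol.Holo x := by
  intro n π τ h1 h2 h3
  obtain ⟨Λ, h4, h5⟩ := h n π τ ⟨h1, h2, h3⟩
  obtain ⟨m, h6, -⟩ := order_L1 (π := π) (y := x) h4.meromorphicAt h5
  have h7 := h4.meromorphicOrderAt_nonneg
  rw [h6] at h7
  exact ⟨m, by exact_mod_cast h7, Λ, h4.meromorphicAt, h5, h6⟩

omit [IsTopologicalGroup G] [CompactSpace G] [T2Space G] [MeasurableSpace G] [BorelSpace G] in
theorem not_quadratic [PreconnectedSpace G] {η : G →* Matrix.unitaryGroup (Fin 1) ℂ}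
    (h : Quadratic η) : False := by
  obtain ⟨hc, h1, g, hg⟩ := h
  have hcm : Continuous fun g => tr η g := by
    have h2 : Continuous fun g => (η g : Matrix (Fin 1) (Fin 1) ℂ) :=
      continuous_subtype_val.comp hc
    exact h2.matrix_trace
  have hclop : IsClopen {g | tr η g = 1} := by
    refine ⟨isClosed_eq hcm continuous_const, ?_⟩
    have h2 : {g | tr η g = 1} = {g | tr η g = -1}ᶜ := by
      ext g
      simp only [Set.mem_ofPred_eq, Set.mem_compl_iff]
      rcases h1 g with h | h <;> rw [h] <;> norm_num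
    rw [h2]
    exact (isClosed_eq hcm continuous_const).isOpen_compl
  have hone : tr η 1 = 1 := by
    unfold tr
    rw [map_one]
    simp
  have hall : tr η g = 1 := by
    rcases isClopen_iff.1 hclop with h2 | h2
    · have h3 : (1 : G) ∈ {g | tr η g = 1} := hone
      rw [h2] at h3
      exact absurd h3 (Set.notMem_empty _)
    · have h3 : g ∈ {g | tr η g = 1} := by
        rw [h2]
        exact Set.mem_univ g
      exact h3
  apply hg
  apply Subtype.ext
  ext i j
  have hi : i = 0 := Subsingleton.elim _ _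
  have hj : j = 0 := Subsingleton.elim _ _
  subst hi
  subst hj
  have h2 : tr η g = (η g : Matrix (Fin 1) (Fin 1) ℂ) 0 0 := Hol.chi1 η g
  rw [← h2, hall]
  rfl

end Bridge

/-- **Holomorphy on the line `Re s = 1` and the Sato-Tate law.**  Let `K` be a number field, `G` a compact
group with Haar probability measure `μ` and `x_v ∈ G` arbitrary elements for the primes `v` of `K`.

I. (Balance of zeros and poles.)  Let `ρ_i` be finitely many pairwise inequivalent non-trivial continuous
irreducible unitary representations, `d_i` their dimensions, `τ_k ≠ 0` finitely many real numbers and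
`c_k ≥ 0` with `1 + ∑ c_k cos(τ_k θ) ≥ 0` for all real `θ`.  Let `L(ρ_i, s)` have the order `m_i` (positive at
zeros, negative at poles) at `s = 1` and the order `m_ik` at `1 + i τ_k`, and let the `L`-functions of all
other non-trivial irreducible representations have continuations without poles at `1` and `1 + i τ_k`.
Then `∑_i d_i (m_i + ∑_k c_k m_ik) ≤ 1`.

Suppose now that the `L`-functions of all non-trivial irreducible representations have local holomorphic
continuations at all points of the line `Re s = 1`.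

II. (Dichotomy.)  Either none of them has a zero on the line and the `x_v` are equidistributed in `G`,
or there is a quadratic character `η` of `G` such that `L(η, s)` has a simple zero at `s = 1`, there are
no other zeros on the line, and the `x_v` are equidistributed in the coset `η = -1`, that is for the
measure `(1 - η) μ`.

III.  If there is no quadratic character `η` of `G` for which the average of `η(x_v)` is `-1`, then
there are no zeros on the line and the `x_v` are equidistributed in `G`.

IV.  The same holds if `G` is connected. -/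
theorem result (K : Type) [Field K] [NumberField K]
    (G : Type) [Group G] [TopologicalSpace G] [IsTopologicalGroup G] [CompactSpace G] [T2Space G]
    [MeasurableSpace G] [BorelSpace G] (μ : Measure G) [IsProbabilityMeasure μ] [μ.IsHaarMeasure]
    (x : HeightOneSpectrum (𝓞 K) → G) :
    (∀ (ι κ : Type) [Fintype ι] [Fintype κ] (d : ι → ℕ)
      (ρ : ∀ i, G →* Matrix.unitaryGroup (Fin (d i)) ℂ) (c τ : κ → ℝ) (m₀ : ι → ℤ)
      (m : ι → κ → ℤ), (∀ i, Good (ρ i)) → (∀ i j, i ≠ j → tr (ρ i) ≠ tr (ρ j)) →
      (∀ k, 0 ≤ c k) → (∀ k, τ k ≠ 0) → (∀ θ : ℝ, 0 ≤ 1 + ∑ k, c k * Real.cos (τ k * θ)) →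
      (∀ i, HasOrder (ρ i) x 0 (m₀ i)) → (∀ i k, HasOrder (ρ i) x (τ k) (m i k)) →
      (∀ (n : ℕ) (π : G →* Matrix.unitaryGroup (Fin n) ℂ), Good π → (∀ i, tr π ≠ tr (ρ i)) →
        (∃ a : ℤ, 0 ≤ a ∧ HasOrder π x 0 a) ∧ ∀ k, ∃ a : ℤ, 0 ≤ a ∧ HasOrder π x (τ k) a) →
      ∑ i, (d i : ℝ) * (m₀ i + ∑ k, c k * m i k) ≤ 1) ∧
    (HolomorphicOnLine x →
      ((NoZeros x ∧ Equidistributed x μ) ∨
        ∃ η : G →* Matrix.unitaryGroup (Fin 1) ℂ, Quadratic η ∧ HasOrder η x 0 1 ∧
          (∀ (n : ℕ) (π : G →* Matrix.unitaryGroup (Fin n) ℂ) (τ : ℝ), Good π →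
            (tr π ≠ tr η ∨ τ ≠ 0) → HasOrder π x τ 0) ∧
          EquidistributedFor x μ fun g => 1 - tr η g) ∧
      ((∀ η : G →* Matrix.unitaryGroup (Fin 1) ℂ, Quadratic η →
        ¬ Tendsto (avg fun v => tr η (x v)) atTop (𝓝 (-1))) →
        NoZeros x ∧ Equidistributed x μ) ∧
      (PreconnectedSpace G → NoZeros x ∧ Equidistributed x μ)) := by
  refine ⟨?_, fun hL => ?_⟩
  · intro ι κ _ _ d ρ c τ m₀ m h1 h2 h3 h4 h5 h6 h7 h8
    exact Pool.Agent.V1142.SC.Hol.balance (x := x) (fun i => (h1 i).1) (fun i => (h1 i).2.1)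
      (fun i => (h1 i).2.2) h2 h3 h4 h5 h6 h7
      (fun n π k1 k2 k3 k4 => h8 n π ⟨k1, k2, k3⟩ k4)
  · have hH := holo_of hL
    have hII : (NoZeros x ∧ Equidistributed x μ) ∨
        ∃ η : G →* Matrix.unitaryGroup (Fin 1) ℂ, Quadratic η ∧ HasOrder η x 0 1 ∧
          (∀ (n : ℕ) (π : G →* Matrix.unitaryGroup (Fin n) ℂ) (τ : ℝ), Good π →
            (tr π ≠ tr η ∨ τ ≠ 0) → HasOrder π x τ 0) ∧
          EquidistributedFor x μ fun g => 1 - tr η g := by
      rcases Pool.Agent.V1142.SC.Hol.dichotomy (μ := μ) hH with ⟨h1, h2⟩ |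
        ⟨η, h1, h2, h3, h4, h5, h6⟩
      · refine Or.inl ⟨fun n π τ h => h1 n π τ h.1 h.2.1 h.2.2, fun f k1 k2 => ?_⟩
        rw [avg_eq]
        simpa using h2 f k1 k2
      · refine Or.inr ⟨η, ⟨h1, h3, h2⟩, h4, fun n π τ h k => h5 n π τ h.1 h.2.1 h.2.2 k,
          fun f k1 k2 => ?_⟩
        rw [avg_eq]
        exact h6 f k1 k2
    have hIII : (∀ η : G →* Matrix.unitaryGroup (Fin 1) ℂ, Quadratic η →
        ¬ Tendsto (avg fun v => tr η (x v)) atTop (𝓝 (-1))) →
        NoZeros x ∧ Equidistributed x μ := by
      intro hq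
      rcases hII with h | ⟨η, h1, h2, h3, h4⟩
      · exact h
      · exfalso
        refine hq η h1 ?_
        have hcm : Continuous fun g => tr η g := Pool.Agent.TH553.ST.cont_chi h1.1
        have k1 := h4 (fun g => tr η g) hcm
          (fun g h => Pool.Agent.TH553.ST.chi_cls η g h)
        have k2 : ∫ g, tr η g * (1 - tr η g) ∂μ = -1 := by
          have e : (fun g => tr η g * (1 - tr η g)) = fun g => tr η g - 1 := by
            funext g
            rcases h1.2.1 g with h | h <;> rw [h] <;> norm_num
          rw [e, integral_sub (Pool.Agent.TH553.ST.intg hcm) (integrable_const _)]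
          have k3 : ∫ g, tr η g ∂μ = 0 :=
            Pool.Agent.TH553.ST.int_chi h1.1 (Pool.Agent.V1142.SC.Many.schur_one η) h1.2.2
          rw [k3]
          simp
        rw [k2] at k1
        exact k1
    refine ⟨hII, hIII, fun _ => hIII fun η hη => (not_quadratic hη).elim⟩

end Pool.Agent.Results.MP_4c4ce6_nt.HolomorphyOnTheLine
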