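import Pool.Agent.V1142.SC.Ip9

/-!
# Meromorphy at `s = 1` alone forces equidistribution with respect to a law of Lie type

`K` is any number field and `z_v = (z_{v,1}, …, z_{v,n})` a family of `n`-tuples of complex numbers of absolute
value one for the primes `v` of `K`: the normalized eigenvalues of the Frobenius classes in `U(n)` of a motive
or a compatible system, or the Satake parameters of a tempered representation (arbitrary values at the finitely
many bad primes).  The conjectures of Sato-Tate type say that the `z_v` (up to permutation) are equidistributed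
for the image of the Haar measure of a compact Lie group `G ⊆ U(n)`.  By Weyl's integration formula such an
image is a finite sum of measures `P_j · Haar(H_j)`, where `H_j` is a closed subgroup of the torus and `P_j`
a nonnegative trigonometric polynomial on `H_j`.

Serre's criterion deduces equidistribution from continuations of all `L`-functions of `G` to the line `Re s = 1`
which are holomorphic and do not vanish.  The theorem assumes much less, namely a MEROMORPHIC continuation to a
neighbourhood of the SINGLE POINT `s = 1`, for the tensor products of exterior powers of the standard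
representation, twisted by powers of the determinant; nothing is assumed about zeros and poles at this point
and nothing about a group `G`.  It says that then the Dirichlet averages of all continuous class functions
exist and are given by a law which has exactly the shape of Weyl's integration formula.  (Averages over
`N(v) ≤ X` are treated under the usual conditions at the other points of the line.)

The proof: by the existence of integral orders at `s = 1` the averages of the symmetrized monomials are
integers `r(l)`, `l ∈ ℤⁿ` (the imaginary parts of the averages vanish since the argument of a meromorphic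
function is bounded near `s = 1`, and the symmetric monomials are integral combinations of the characters
in question).  The function `r` is positive definite.  Any positive definite function with integral values on
an abelian group is a finite sum of such functions each of which is periodic modulo a subgroup and has finite
support modulo this subgroup (a version of Cohen's theorem on idempotent measures for positive measures; the
short proof uses double limits along ultrafilters and induction on `r(0)`).
-/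

set_option autoImplicit false

namespace Pool.Agent.Results.MP_4c4ce6_nt.LawsOfLieType

open NumberField IsDedekindDomain Filter Topology MeasureTheory

section

variable {K : Type} [Field K] [NumberField K] {n : ℕ}

/-- The quotient `∑ φ(v) N(v)^{-1-ε} / ∑ N(v)^{-1-ε}`. -/
noncomputable def dirichletAvg (φ : HeightOneSpectrum (𝓞 K) → ℂ) (ε : ℝ) : ℂ :=
  (∑' v : HeightOneSpectrum (𝓞 K), φ v * (((Ideal.absNorm v.asIdeal : ℝ) ^ (-(1 + ε)) : ℝ) : ℂ)) /
    ∑' v : HeightOneSpectrum (𝓞 K), (((Ideal.absNorm v.asIdeal : ℝ) ^ (-(1 + ε)) : ℝ) : ℂ)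

/-- The average of `φ` over the primes of `K` of norm at most `X`. -/
noncomputable def avg (φ : HeightOneSpectrum (𝓞 K) → ℂ) (X : ℕ) : ℂ :=
  (∑ᶠ w : {w : HeightOneSpectrum (𝓞 K) // Ideal.absNorm w.asIdeal ≤ X}, φ w.1) /
    (Nat.card {w : HeightOneSpectrum (𝓞 K) // Ideal.absNorm w.asIdeal ≤ X} : ℂ)

/-- The monomial `∏ z_a^{l_a}`. -/
noncomputable def monomial (z : Fin n → Circle) (l : Fin n → ℤ) : Circle := ∏ a, z a ^ l a

/-- The families of subsets of `{1, …, n}` which consist of `d_i` subsets with `i` elements for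
`1 ≤ i ≤ n` (`i + 1` elements for `i : Fin n`).  They index the weights of the tensor product of the
exterior powers `∧^i` of the standard representation of `U(n)`, `∧^i` taken `d_i` times. -/
abbrev Families (n : ℕ) (d : Fin n → ℕ) : Type :=
  (p : Σ i : Fin n, Fin (d i)) → {S : Finset (Fin n) // S.card = (p.1 : ℕ) + 1}

/-- The eigenvalue of the diagonal matrix `z` on this tensor product, twisted by `det^{-k}`, which belongs to
the family `S`: the product over the members of the family and over their elements, times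
`(z_1 ⋯ z_n)^{-k}`. -/
noncomputable def eigenvalue (z : Fin n → Circle) (d : Fin n → ℕ) (k : ℕ) (S : Families n d) : Circle :=
  (∏ p, ∏ a ∈ (S p).1, z a) * ((∏ a, z a)⁻¹) ^ k

/-- The Euler product `∏_v det(1 - π(z_v) N(v)^{-s})⁻¹` of the representation
`π = ⊗_i (∧^i)^{⊗ d_i} ⊗ det^{-k}`. -/
noncomputable def L (z : HeightOneSpectrum (𝓞 K) → Fin n → Circle) (d : Fin n → ℕ) (k : ℕ) (s : ℂ) : ℂ :=
  ∏' v : HeightOneSpectrum (𝓞 K), (∏ S : Families n d,
    (1 - (eigenvalue (z v) d k S : ℂ) * (Ideal.absNorm v.asIdeal : ℂ) ^ (-s)))⁻¹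

/-- `L` has a meromorphic continuation to a neighbourhood of `s = 1`. -/
def Meromorphic (z : HeightOneSpectrum (𝓞 K) → Fin n → Circle) (d : Fin n → ℕ) (k : ℕ) : Prop :=
  ∃ Λ : ℂ → ℂ, MeromorphicAt Λ 1 ∧ ∀ᶠ s in 𝓝 (1 : ℂ), (1 : ℝ) < s.re → Λ s = L z d k s

/-- It has the order `m` at `s = 1` (positive at zeros, negative at poles). -/
def HasOrder (z : HeightOneSpectrum (𝓞 K) → Fin n → Circle) (d : Fin n → ℕ) (k : ℕ) (m : ℤ) : Prop :=
  ∃ Λ : ℂ → ℂ, MeromorphicAt Λ 1 ∧ (∀ᶠ s in 𝓝 (1 : ℂ), (1 : ℝ) < s.re → Λ s = L z d k s) ∧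
    meromorphicOrderAt Λ 1 = m

/-- `L` has a holomorphic continuation to a neighbourhood of `1 + iτ` which does not vanish at `1 + iτ` (up to
the value at `1 + iτ` itself). -/
def Regular (z : HeightOneSpectrum (𝓞 K) → Fin n → Circle) (d : Fin n → ℕ) (k : ℕ) (τ : ℝ) : Prop :=
  ∃ Λ : ℂ → ℂ, MeromorphicAt Λ (1 + τ * Complex.I) ∧
    (∀ᶠ s in 𝓝 ((1 : ℂ) + τ * Complex.I), (1 : ℝ) < s.re → Λ s = L z d k s) ∧
    meromorphicOrderAt Λ (1 + τ * Complex.I) = (0 : ℤ)

end

section Bridge

open Pool.Agent.TH553.ST Pool.Agent.TH553.RS Pool.Agent.W540.BE Pool.Agent.V1142.SC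
  Pool.Agent.V1142.SC.Many

variable {K : Type} [Field K] [NumberField K] {n : ℕ}

theorem L_eq (z : HeightOneSpectrum (𝓞 K) → Fin n → Circle) (d : Fin n → ℕ) (k : ℕ) :
    L z d k = LA (Ip.Dg z d k) := by
  funext s
  unfold L LA
  refine tprod_congr fun v => ?_
  congr 1
  have h1 : (1 : Matrix (Ip.Fam n d) (Ip.Fam n d) ℂ) - (((nm K v : ℕ) : ℂ) ^ (-s)) •
      Ip.Dg z d k v = Matrix.diagonal fun S : Ip.Fam n d => 1 -
        ((Ip.wt (z v) d k S : Circle) : ℂ) * ((nm K v : ℕ) : ℂ) ^ (-s) := by
    unfold Ip.Dg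
    rw [← Matrix.diagonal_one, ← Matrix.diagonal_smul, Matrix.diagonal_sub]
    congr 1
    funext S
    simp only [Pi.smul_apply, smul_eq_mul]
    rw [mul_comm]
  rw [h1, Matrix.det_diagonal]
  rfl

theorem avg_eq_mn (g : HeightOneSpectrum (𝓞 K) → ℂ) (N : ℕ) : avg g N = mn g N := by
  have hs : ∀ v, v ∈ upto K N ↔ Ideal.absNorm v.asIdeal ≤ N := fun v => mem_upto
  let e : {v : HeightOneSpectrum (𝓞 K) // Ideal.absNorm v.asIdeal ≤ N} ≃ (upto K N) :=
    Equiv.subtypeEquivRight fun v => (hs v).symm
  have hfin : Finite {v : HeightOneSpectrum (𝓞 K) // Ideal.absNorm v.asIdeal ≤ N} :=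
    Finite.of_equiv _ e.symm
  unfold avg mn
  have h1 : (∑ᶠ v : {v : HeightOneSpectrum (𝓞 K) // Ideal.absNorm v.asIdeal ≤ N}, g v.1) =
      ∑ v ∈ upto K N, g v := by
    rw [← Finset.sum_coe_sort, ← finsum_eq_sum_of_fintype, ← finsum_comp_equiv e]
    rfl
  have h2 : Nat.card {v : HeightOneSpectrum (𝓞 K) // Ideal.absNorm v.asIdeal ≤ N} =
      (upto K N).card := by
    rw [Nat.card_congr e, Nat.card_eq_fintype_card, Fintype.card_coe]
  rw [h1, h2, Complex.real_smul, div_eq_inv_mul]
  push_cast
  rfl

theorem avg_eq {φ : HeightOneSpectrum (𝓞 K) → ℂ} (hφ : Bc φ) {ε : ℝ} (hε : 0 < ε) :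
    dirichletAvg φ ε = (((EP (nm K) ε fun v => (φ v).re) / EP (nm K) ε fun _ => 1 : ℝ) : ℂ) +
      (((EP (nm K) ε fun v => (φ v).im) / EP (nm K) ε fun _ => 1 : ℝ) : ℂ) * Complex.I := by
  have hN : NormSys (nm K) := normSys
  obtain ⟨C, hC⟩ := hφ
  have hs : Summable fun v : HeightOneSpectrum (𝓞 K) =>
      φ v * (((Ideal.absNorm v.asIdeal : ℝ) ^ (-(1 + ε)) : ℝ) : ℂ) := by
    refine Summable.of_norm_bounded ((hN.summable (-(1 + ε)) (by linarith)).mul_left C) fun v => ?_
    rw [norm_mul, Complex.norm_real, Real.norm_eq_abs, abs_of_nonneg (by positivity)]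
    exact mul_le_mul_of_nonneg_right (hC v) (by positivity)
  have h1 : ∑' v : HeightOneSpectrum (𝓞 K),
      φ v * (((Ideal.absNorm v.asIdeal : ℝ) ^ (-(1 + ε)) : ℝ) : ℂ) =
      ((EP (nm K) ε fun v => (φ v).re : ℝ) : ℂ) + ((EP (nm K) ε fun v => (φ v).im : ℝ) : ℂ) * Complex.I := by
    apply Complex.ext
    · rw [Complex.re_tsum hs]
      simp only [Complex.add_re, Complex.ofReal_re, Complex.mul_re,
        Complex.I_re, Complex.I_im, Complex.ofReal_im, mul_zero, mul_one, sub_zero, add_zero]
      rfl
    · rw [Complex.im_tsum hs]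
      simp only [Complex.add_im, Complex.ofReal_im, Complex.mul_im,
        Complex.I_re, Complex.I_im, Complex.ofReal_re, mul_zero, mul_one, zero_add]
      rw [add_zero]
      rfl
  have h2 : ∑' v : HeightOneSpectrum (𝓞 K), (((Ideal.absNorm v.asIdeal : ℝ) ^ (-(1 + ε)) : ℝ) : ℂ) =
      ((EP (nm K) ε fun _ => 1 : ℝ) : ℂ) := by
    rw [← Complex.ofReal_tsum]
    unfold EP
    simp only [one_mul]
    rfl
  unfold dirichletAvg
  rw [h1, h2]
  push_cast
  ring

end Bridge

/-- **Meromorphy at `s = 1` forces a limit law of Lie type.**  Let `K` be a number field, `n ≥ 0` and `z_v` an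
`n`-tuple of complex numbers of absolute value one for every prime `v` of `K`, such that for all
`d_1, …, d_n, k ≥ 0` the Euler product `L` of the representation `⊗_i (∧^i)^{⊗ d_i} ⊗ det^{-k}` has a
meromorphic continuation to a neighbourhood of `s = 1`.  Then there are finitely many closed subgroups `H_j` of
the torus `U(1)ⁿ` and real functions `P_j` such that

(1) on `H_j` the function `P_j` is nonnegative and `n! P_j` is a trigonometric polynomial with integral
coefficients;

and for the normalized Haar measures `ν_j` of the groups `H_j`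

(2) the Fourier coefficients of the measures `n! P_j ν_j` are integers;

(3) for every continuous symmetric function `f` on the torus (that is, for every continuous class function on
`U(n)`) the Dirichlet averages of the `f(z_v)` converge to `∑_j ∫ f P_j dν_j`;

(4) if all `L` have moreover holomorphic continuations without zeros near all points `1 + iτ`, `τ ≠ 0`, then the
averages of the `f(z_v)` over the primes with `N(v) ≤ X` converge to the same sum;

(5) the order of `L` at `s = 1` is minus this sum for the character `f` of the representation. -/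
theorem result (K : Type) [Field K] [NumberField K] (n : ℕ)
    (z : HeightOneSpectrum (𝓞 K) → Fin n → Circle) (hmer : ∀ d k, Meromorphic z d k) :
    ∃ (J : Type) (_ : Fintype J) (H : J → Subgroup (Fin n → Circle)) (P : J → (Fin n → Circle) → ℝ),
      (∀ j, IsClosed (H j : Set (Fin n → Circle))) ∧
      (∀ j, ∃ (s : Finset (Fin n → ℤ)) (c : (Fin n → ℤ) → ℤ), ∀ x ∈ H j,
        0 ≤ P j x ∧ (n.factorial : ℂ) * (P j x : ℂ) = ∑ l ∈ s, (c l : ℂ) * (monomial x l : ℂ)) ∧
      ∀ [∀ j, MeasurableSpace (H j)] [∀ j, BorelSpace (H j)] (ν : ∀ j, Measure (H j))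
        [∀ j, IsProbabilityMeasure (ν j)] [∀ j, (ν j).IsHaarMeasure],
        (∀ (j : J) (l : Fin n → ℤ), ∃ m : ℤ,
          (n.factorial : ℂ) * ∫ x : H j, (monomial x.1 l : ℂ) * (P j x.1 : ℂ) ∂(ν j) = (m : ℂ)) ∧
        (∀ f : (Fin n → Circle) → ℂ, Continuous f →
          (∀ (x : Fin n → Circle) (σ : Equiv.Perm (Fin n)), f (x ∘ σ) = f x) →
          Tendsto (dirichletAvg fun v => f (z v)) (𝓝[>] 0)
            (𝓝 (∑ j, ∫ x : H j, f x.1 * (P j x.1 : ℂ) ∂(ν j)))) ∧
        ((∀ (d : Fin n → ℕ) (k : ℕ) (τ : ℝ), τ ≠ 0 → Regular z d k τ) →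
          ∀ f : (Fin n → Circle) → ℂ, Continuous f →
            (∀ (x : Fin n → Circle) (σ : Equiv.Perm (Fin n)), f (x ∘ σ) = f x) →
            Tendsto (avg fun v => f (z v)) atTop
              (𝓝 (∑ j, ∫ x : H j, f x.1 * (P j x.1 : ℂ) ∂(ν j)))) ∧
        ∀ (d : Fin n → ℕ) (k : ℕ) (m : ℤ), HasOrder z d k m →
          (m : ℂ) = -∑ j, ∫ x : H j, (∑ S : Families n d, (eigenvalue x.1 d k S : ℂ)) *
            (P j x.1 : ℂ) ∂(ν j) := by
  have hMe : ∀ d k, Pool.Agent.V1142.SC.Ip.Me z d k := by
    intro d k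
    have := hmer d k
    unfold Meromorphic at this
    rw [L_eq] at this
    exact this
  choose r hr hr' using fun l => Pool.Agent.V1142.SC.Ip.exists_r' hMe l
  obtain ⟨U₀, hU₀⟩ := Pool.Agent.V1142.SC.Hol.exists_U
  have hipd : Pool.Agent.V1142.SC.Ip.IPD r :=
    Pool.Agent.V1142.SC.Ip.ipd_r hU₀ fun l => hr l U₀ hU₀
  obtain ⟨J, hJ, D, hD⟩ := Pool.Agent.V1142.SC.Ip.exists_data hipd
  have hn : (n.factorial : ℂ) ≠ 0 := by exact_mod_cast n.factorial_ne_zero
  refine ⟨J, hJ, fun j => Pool.Agent.V1142.SC.Ip.perp (D.H j), D.P,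
    fun j => Pool.Agent.V1142.SC.Ip.perp_closed _, fun j => ?_, ?_⟩
  · refine ⟨(D.s j).image fun t => -t, fun l => D.F j (-l), fun x hx => ?_⟩
    have h1 := D.P_eq j ⟨x, hx⟩
    refine ⟨D.P_nonneg j ⟨x, hx⟩, ?_⟩
    simp only at h1
    rw [h1, mul_inv_cancel_left₀ hn, Finset.sum_image fun a _ b _ h => neg_injective h]
    unfold Pool.Agent.V1142.SC.Ip.tp
    refine Finset.sum_congr rfl fun t _ => ?_
    change ((D.F j t : ℤ) : ℂ) * _ = ((D.F j (- -t) : ℤ) : ℂ) * _
    rw [neg_neg]
    rfl
  · intro _ _ ν _ _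
    have hlaw : ∀ (f : (Fin n → Circle) → ℂ), Continuous f →
        (∀ (x : Fin n → Circle) (σ : Equiv.Perm (Fin n)), f (x ∘ σ) = f x) →
        ∀ U : Ultrafilter ℝ, (U : Filter ℝ) ≤ 𝓝[>] 0 →
        Pool.Agent.V1142.SC.Ip.Mc U (fun v => f (z v)) = ∑ j, ∫ x : Pool.Agent.V1142.SC.Ip.perp (D.H j),
          f x.1 * (D.P j x.1 : ℂ) ∂(ν j) := fun f hf hs U hU =>
      Pool.Agent.V1142.SC.Ip.law_M D ν hD hU (fun l => hr l U hU) hf hs
    refine ⟨fun j l => ⟨D.F j l, ?_⟩, fun f hf hs => ?_, fun hreg f hf hs => ?_, fun d k m hm => ?_⟩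
    · have h1 := D.int_P ν j l
      have h2 : (n.factorial : ℂ) * ∫ x : Pool.Agent.V1142.SC.Ip.perp (D.H j),
          ((Pool.Agent.V1142.SC.Ip.mon x.1 l : Circle) : ℂ) * (D.P j x.1 : ℂ) ∂(ν j) = (D.F j l : ℂ) := by
        rw [h1, mul_inv_cancel_left₀ hn]
      exact h2
    · obtain ⟨B, hB⟩ := (isCompact_univ (X := Fin n → Circle)).exists_bound_of_continuousOn
        hf.continuousOn
      have hb : Pool.Agent.TH553.ST.Bc fun v => f (z v) := ⟨B, fun v => hB _ trivial⟩
      refine (Pool.Agent.V1142.SC.Ip.tendsto_of_Mc hb (hlaw f hf hs)).congr' ?_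
      filter_upwards [self_mem_nhdsWithin] with ε hε
      exact (avg_eq hb hε).symm
    · have hreg' : ∀ d k (τ : ℝ), τ ≠ 0 → Pool.Agent.V1142.SC.Ip.OrdZ z d k τ 0 := by
        intro d k τ hτ
        have h1 := hreg d k τ hτ
        unfold Regular at h1
        rw [L_eq] at h1
        exact h1
      have h2 := Pool.Agent.V1142.SC.Ip.law_mn D ν hD (fun l => hr' l hreg') hf hs
      exact h2.congr fun N => (avg_eq_mn _ N).symm
    · obtain ⟨Λ, h1, h2, h3⟩ := hm
      rw [L_eq] at h2
      obtain ⟨m', h4, h5⟩ := Pool.Agent.V1142.SC.Ip.Mc_of_order h1 h2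
      have hmm : m = m' := by
        rw [h3] at h4
        exact_mod_cast h4
      have hc : Continuous fun x : Fin n → Circle => ∑ S : Families n d, (eigenvalue x d k S : ℂ) := by
        refine continuous_finsetSum _ fun S _ => ?_
        refine (show Continuous (fun w : Circle => (w : ℂ)) by fun_prop).comp ?_
        unfold eigenvalue
        fun_prop
      have hs : ∀ (x : Fin n → Circle) (σ : Equiv.Perm (Fin n)),
          (∑ S : Families n d, (eigenvalue (x ∘ σ) d k S : ℂ)) =
          ∑ S : Families n d, (eigenvalue x d k S : ℂ) := by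
        intro x σ
        refine Fintype.sum_equiv (Equiv.piCongrRight fun p => Equiv.subtypeEquiv
          (Equiv.finsetCongr σ) fun S => by simp) _ _ fun S => ?_
        congr 1
        unfold eigenvalue
        congr 1
        · refine Finset.prod_congr rfl fun p _ => ?_
          simp [Finset.prod_map]
        · congr 2
          exact Equiv.prod_comp σ x
      have h6 := hlaw (fun x => ∑ S : Families n d, (eigenvalue x d k S : ℂ)) hc hs U₀ hU₀
      have h7 := h5 U₀ hU₀
      rw [hmm, ← h6]
      have h8 : Pool.Agent.V1142.SC.Ip.Mc U₀ (fun v => ∑ S : Families n d,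
          (eigenvalue (z v) d k S : ℂ)) = ((-m' : ℤ) : ℂ) := h7
      rw [h8]
      push_cast
      ring

end Pool.Agent.Results.MP_4c4ce6_nt.LawsOfLieType
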